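import Mathlib
import Pool.Agent.Run7.h207.GC.Iface

set_option autoImplicit false

namespace Run7.h590.GC

open Finset Pool.Agent.H162R2.AG Pool.Agent.H162R2.Sparse Pool.Agent.Run7.h207.GC

theorem tail_num : ((283 : ℝ) / 256) ^ 100 ≤ (5 / 4) ^ 48 := by norm_num

theorem tail_pow (n : ℕ) : ((283 : ℝ) / 256) ^ n ≤ (5 / 4 : ℝ) ^ (48 / 100 * (n : ℝ)) := by
  have h1 : ((283 : ℝ) / 256) ^ n = (((283 : ℝ) / 256) ^ 100) ^ ((n : ℝ) / 100) := by
    rw [← Real.rpow_natCast _ 100, ← Real.rpow_mul (by norm_num), ← Real.rpow_natCast]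
    congr 1
    push_cast
    ring
  have h2 : (5 / 4 : ℝ) ^ (48 / 100 * (n : ℝ)) = ((5 / 4 : ℝ) ^ 48) ^ ((n : ℝ) / 100) := by
    rw [← Real.rpow_natCast _ 48, ← Real.rpow_mul (by norm_num)]
    congr 1
    push_cast
    ring
  rw [h1, h2]
  exact Real.rpow_le_rpow (by positivity) tail_num (by positivity)

open Classical in
/-- the moment generating function -/
theorem tail_mgf (n : ℕ) (A : Finset (Fin n)) (P : Finset (Fin n) → Prop) :
    ∑ H : SimpleGraph (Fin n), (5 / 4 : ℝ) ^ (A.filter fun b => P (nb H b \ A)).card =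
      Nat.card (G0R A) * (∑ s : G0S A, if P s.1 then (5 / 4 : ℝ) else 1) ^ A.card := by
  have h1 : ∀ H : SimpleGraph (Fin n), (5 / 4 : ℝ) ^ (A.filter fun b => P (nb H b \ A)).card =
      ∏ b : A, if P ((G0equiv A H).1 b).1 then (5 / 4 : ℝ) else 1 := by
    intro H
    show _ = ∏ b : A, if P (nb H b \ A) then (5 / 4 : ℝ) else 1
    rw [Finset.prod_coe_sort A (fun b => if P (nb H b \ A) then (5 / 4 : ℝ) else 1),
      Finset.prod_ite, Finset.prod_const, Finset.prod_const_one, mul_one]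
  rw [Finset.sum_congr rfl (fun H _ => h1 H)]
  rw [Equiv.sum_comp (G0equiv A) (fun x => ∏ b : A, if P (x.1 b).1 then (5 / 4 : ℝ) else 1)]
  rw [Fintype.sum_prod_type]
  have h2 : ∀ x : (A → G0S A), ∑ y : G0R A, (∏ b : A,
      if P (((x, y) : (A → G0S A) × G0R A).1 b).1 then (5 / 4 : ℝ) else 1) =
      Nat.card (G0R A) * ∏ b : A, if P (x b).1 then (5 / 4 : ℝ) else 1 := by
    intro x
    have h3 : ∀ y : G0R A, (∏ b : A,
      if P (((x, y) : (A → G0S A) × G0R A).1 b).1 then (5 / 4 : ℝ) else 1) =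
      ∏ b : A, if P (x b).1 then (5 / 4 : ℝ) else 1 := fun y => rfl
    rw [Finset.sum_congr rfl (fun y _ => h3 y), Finset.sum_const, Finset.card_univ,
      nsmul_eq_mul, Nat.card_eq_fintype_card]
  rw [Finset.sum_congr rfl (fun x _ => h2 x), ← Finset.mul_sum]
  congr 1
  have h4 : (∑ s : G0S A, if P s.1 then (5 / 4 : ℝ) else 1) ^ A.card =
      ∏ _b : A, ∑ s : G0S A, if P s.1 then (5 / 4 : ℝ) else 1 := by
    rw [Finset.prod_const, Finset.card_univ, Fintype.card_coe]
  rw [h4, Finset.prod_univ_sum, Fintype.piFinset_univ]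

theorem tail_cardS (n : ℕ) (A : Finset (Fin n)) : (Fintype.card (G0S A) : ℝ) = 2 ^ (Aᶜ).card := by
  classical
  have : Fintype.card (G0S A) = 2 ^ (Aᶜ).card := by
    rw [← Finset.card_powerset]
    apply Fintype.card_of_subtype
    intro s
    rw [mem_powerset]
  rw [this]
  push_cast
  ring

theorem tail_card (n : ℕ) (A : Finset (Fin n)) :
    (Fintype.card (SimpleGraph (Fin n)) : ℝ) =
      (2 ^ (Aᶜ).card) ^ A.card * Nat.card (G0R A) := by
  classical
  have h2 : Nat.card (SimpleGraph (Fin n)) = (2 ^ (Aᶜ).card) ^ A.card * Nat.card (G0R A) := by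
    rw [Nat.card_congr (G0equiv A), Nat.card_prod, Nat.card_fun]
    congr 2
    · rw [Nat.card_eq_fintype_card, ← Finset.card_powerset]
      apply Fintype.card_of_subtype
      intro s
      rw [mem_powerset]
    · simp
  rw [← Nat.card_eq_fintype_card, h2]
  push_cast
  ring

theorem t_TAIL : J_TAIL := by
  classical
  intro n C P hP
  have hmgf := tail_mgf n Cᶜ P
  have hsd : ∀ H : SimpleGraph (Fin n), ∀ b, nb H b \ Cᶜ = nb H b ∩ C := by
    intro H b
    ext t
    simp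
  have hX : ∀ H : SimpleGraph (Fin n), cnt (fun b : Fin n => b ∉ C ∧ P (nb H b ∩ C)) =
      (((Cᶜ).filter fun b => P (nb H b \ Cᶜ)).card : ℝ) := by
    intro H
    rw [cnt_eq_card]
    congr 2
    ext b
    simp [hsd]
  set A := Cᶜ with hA
  have hAc : Aᶜ = C := by rw [hA, compl_compl]
  -- the sum over subsets
  have hsum : (∑ s : G0S A, if P s.1 then (5 / 4 : ℝ) else 1) ≤ 283 / 256 * 2 ^ C.card := by
    have e1 : (∑ s : G0S A, if P s.1 then (5 / 4 : ℝ) else 1) =
        Fintype.card (G0S A) + 1 / 4 * cnt (fun s : G0S A => P s.1) := by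
      rw [cnt_eq_sum, Finset.mul_sum, ← Finset.card_univ, Finset.card_eq_sum_ones]
      push_cast
      rw [← Finset.sum_add_distrib]
      apply Finset.sum_congr rfl
      intro s _
      split_ifs <;> norm_num
    have e2 : cnt (fun s : G0S A => P s.1) = cnt (fun s : {s : Finset (Fin n) // s ⊆ C} => P s.1) := by
      rw [cnt_eq_sum, cnt_eq_sum]
      exact Fintype.sum_equiv (Equiv.subtypeEquivRight (fun s => by rw [hAc])) _ _ (fun s => rfl)
    rw [e1, e2, tail_cardS, hAc]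
    linarith
  have hsum0 : 0 ≤ (∑ s : G0S A, if P s.1 then (5 / 4 : ℝ) else 1) :=
    Finset.sum_nonneg (fun s _ => by split_ifs <;> norm_num)
  have hbound : ∑ H : SimpleGraph (Fin n), (5 / 4 : ℝ) ^ (A.filter fun b => P (nb H b \ A)).card ≤
      Fintype.card (SimpleGraph (Fin n)) * (5 / 4 : ℝ) ^ (48 / 100 * (n : ℝ)) := by
    have hcard := tail_card n A
    rw [hAc] at hcard
    rw [hmgf, hcard]
    have h3 : (∑ s : G0S A, if P s.1 then (5 / 4 : ℝ) else 1) ^ A.card ≤
        (283 / 256) ^ A.card * (2 ^ C.card) ^ A.card := by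
      rw [← mul_pow]
      exact pow_le_pow_left₀ hsum0 hsum _
    have h4 : ((283 : ℝ) / 256) ^ A.card ≤ (283 / 256) ^ n := by
      apply pow_le_pow_right₀ (by norm_num)
      exact (Finset.card_le_univ A).trans (by simp)
    calc (Nat.card (G0R A) : ℝ) * (∑ s : G0S A, if P s.1 then (5 / 4 : ℝ) else 1) ^ A.card
        ≤ Nat.card (G0R A) * ((283 / 256) ^ A.card * (2 ^ C.card) ^ A.card) := by
          apply mul_le_mul_of_nonneg_left h3 (by positivity)
      _ ≤ Nat.card (G0R A) * ((5 / 4 : ℝ) ^ (48 / 100 * (n : ℝ)) * (2 ^ C.card) ^ A.card) := by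
          apply mul_le_mul_of_nonneg_left _ (by positivity)
          apply mul_le_mul_of_nonneg_right (h4.trans (tail_pow n)) (by positivity)
      _ = _ := by ring
  -- Markov
  have hmark : cnt (fun H : SimpleGraph (Fin n) => 49 / 100 * (n : ℝ) ≤
      cnt (fun b : Fin n => b ∉ C ∧ P (nb H b ∩ C))) * (5 / 4 : ℝ) ^ (49 / 100 * (n : ℝ)) ≤
      ∑ H : SimpleGraph (Fin n), (5 / 4 : ℝ) ^ (A.filter fun b => P (nb H b \ A)).card := by
    rw [cnt_eq_sum, Finset.sum_mul]
    apply Finset.sum_le_sum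
    intro H _
    split_ifs with h
    · rw [one_mul, ← Real.rpow_natCast]
      rw [hX H] at h
      exact Real.rpow_le_rpow_of_exponent_le (by norm_num) h
    · rw [zero_mul]
      positivity
  have h5 := hmark.trans hbound
  have h6 : (5 / 4 : ℝ) ^ (48 / 100 * (n : ℝ)) =
      (4 / 5 : ℝ) ^ ((n : ℝ) / 100) * (5 / 4 : ℝ) ^ (49 / 100 * (n : ℝ)) := by
    have : (4 / 5 : ℝ) = (5 / 4)⁻¹ := by norm_num
    rw [this, Real.inv_rpow (by norm_num), ← Real.rpow_neg (by norm_num),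
      ← Real.rpow_add (by norm_num)]
    congr 1
    ring
  rw [h6] at h5
  have h7 : (0 : ℝ) < (5 / 4 : ℝ) ^ (49 / 100 * (n : ℝ)) := by positivity
  have h8 : cnt (fun H : SimpleGraph (Fin n) => 49 / 100 * (n : ℝ) ≤
      cnt (fun b : Fin n => b ∉ C ∧ P (nb H b ∩ C))) * (5 / 4 : ℝ) ^ (49 / 100 * (n : ℝ)) ≤
      ((4 / 5 : ℝ) ^ ((n : ℝ) / 100) * Fintype.card (SimpleGraph (Fin n))) *
        (5 / 4 : ℝ) ^ (49 / 100 * (n : ℝ)) := by
    refine h5.trans (le_of_eq ?_)
    ring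
  exact le_of_mul_le_mul_right h8 h7

end Run7.h590.GC
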