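import Mathlib
import Pool.Agent.Run7.h207.GC.Iface

set_option autoImplicit false

namespace Run7.h590.GC

open Finset Pool.Agent.H162R2.AG Pool.Agent.H162R2.Sparse Pool.Agent.Run7.h207.GC

theorem pow_small (k : ℕ) (δ : ℝ) (hδ : 0 < δ) : ∃ n₀ : ℕ, ∀ n : ℕ, n₀ ≤ n →
    (n : ℝ) ^ k * (4 / 5 : ℝ) ^ ((n : ℝ) / 100) ≤ δ := by
  have hr1 : ((4 / 5 : ℝ) ^ (1 / 100 : ℝ)) < 1 :=
    Real.rpow_lt_one (by norm_num) (by norm_num) (by norm_num)
  have h := tendsto_pow_const_mul_const_pow_of_lt_one k
    (r := (4 / 5 : ℝ) ^ (1 / 100 : ℝ)) (by positivity) hr1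
  have h2 := (h.eventually (Iic_mem_nhds hδ))
  obtain ⟨n₀, hn₀⟩ := Filter.eventually_atTop.mp h2
  refine ⟨n₀, fun n hn => ?_⟩
  have h3 := hn₀ n hn
  have h4 : (4 / 5 : ℝ) ^ ((n : ℝ) / 100) = ((4 / 5 : ℝ) ^ (1 / 100 : ℝ)) ^ n := by
    rw [← Real.rpow_natCast, ← Real.rpow_mul (by norm_num)]
    congr 1
    ring
  rw [h4]
  exact h3

theorem lin_large (C : ℝ) (k : ℕ) : ∃ n₀ : ℕ, ∀ n : ℕ, n₀ ≤ n →
    49 / 100 * (n : ℝ) + k + 6 ≤ (n : ℝ) / 2 - C * √n := by
  obtain ⟨m, hm⟩ := exists_nat_ge (100 * (|C| + k + 6))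
  refine ⟨m ^ 2, fun n hn => ?_⟩
  have hC0 : 0 ≤ |C| := abs_nonneg C
  have hm1 : (1 : ℝ) ≤ m := by
    have : (0 : ℝ) ≤ k := Nat.cast_nonneg k
    linarith
  have h1 : (m : ℝ) ≤ √n := by
    apply Real.le_sqrt_of_sq_le
    exact_mod_cast hn
  have h2 : √(n : ℝ) * √n = n := Real.mul_self_sqrt (Nat.cast_nonneg n)
  have h3 : C * √n ≤ |C| * √n := mul_le_mul_of_nonneg_right (le_abs_self C) (Real.sqrt_nonneg _)
  have h4 : 100 * (|C| + k + 6) * √n ≤ √n * √n :=
    mul_le_mul_of_nonneg_right (hm.trans h1) (Real.sqrt_nonneg _)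
  have h5 : (1 : ℝ) ≤ √n := hm1.trans h1
  have h6 : ((k : ℝ) + 6) * 1 ≤ (k + 6) * √n := by
    apply mul_le_mul_of_nonneg_left h5
    positivity
  nlinarith

theorem cnt_sub (k n : ℕ) (c : Fin k → Fin n) (hc : Function.Injective c)
    (F : (Fin k → Bool) → Prop) :
    cnt (fun s : {s : Finset (Fin n) // s ⊆ univ.image c} => F (fun t => decide (c t ∈ s.1))) =
      cnt F := by
  classical
  have hb : Function.Bijective (fun (s : {s : Finset (Fin n) // s ⊆ univ.image c}) (t : Fin k) =>
      decide (c t ∈ s.1)) := by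
    constructor
    · intro s s' h
      apply Subtype.ext
      ext x
      constructor
      · intro hx
        obtain ⟨t, _, rfl⟩ := Finset.mem_image.mp (s.2 hx)
        have := congrFun h t
        simpa [hx] using this
      · intro hx
        obtain ⟨t, _, rfl⟩ := Finset.mem_image.mp (s'.2 hx)
        have := congrFun h t
        simpa [hx] using this
    · intro v
      refine ⟨⟨(univ.filter fun t => v t = true).image c, ?_⟩, ?_⟩
      · exact Finset.image_subset_image (Finset.filter_subset _ _)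
      · funext t
        simp only [Finset.mem_image, Finset.mem_filter, Finset.mem_univ, true_and]
        by_cases hv : v t = true
        · rw [hv]
          simp only [decide_eq_true_eq]
          exact ⟨t, hv, rfl⟩
        · have : v t = false := by simpa using hv
          rw [this]
          simp only [decide_eq_false_iff_not, not_exists, not_and]
          intro t' ht' h
          rw [hc h] at ht'
          exact hv ht'
  rw [cnt_eq_sum, cnt_eq_sum]
  exact hb.sum_comp (fun v => if F v then (1 : ℝ) else 0)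

open Classical in
theorem gen_R (hT : J_TAIL) (k : ℕ) (F : (Fin k → Bool) → Prop) (hF : 64 * cnt F ≤ 27 * 2 ^ k)
    (C δ : ℝ) (hδ : 0 < δ) :
    ∃ n₀ : ℕ, ∀ n : ℕ, n₀ ≤ n → ∀ d : ℕ, (n : ℝ) / 2 - C * √n ≤ d →
      cnt (fun H : SimpleGraph (Fin n) => ∃ c : Fin k → Fin n, Function.Injective c ∧
        d < (univ.filter fun j => F (fun t => decide (H.Adj (c t) j))).card + 6) ≤
        δ * Fintype.card (SimpleGraph (Fin n)) := by
  obtain ⟨n₁, hn₁⟩ := pow_small k δ hδ
  obtain ⟨n₂, hn₂⟩ := lin_large C k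
  refine ⟨max n₁ n₂, fun n hn d hd => ?_⟩
  have h1 := hn₁ n ((le_max_left _ _).trans hn)
  have h2 := hn₂ n ((le_max_right _ _).trans hn)
  have hN0 : (0 : ℝ) ≤ Fintype.card (SimpleGraph (Fin n)) := by positivity
  have hone : ∀ c ∈ (univ.filter fun c : Fin k → Fin n => Function.Injective c),
      cnt (fun H : SimpleGraph (Fin n) =>
        d < (univ.filter fun j => F (fun t => decide (H.Adj (c t) j))).card + 6) ≤
      (4 / 5 : ℝ) ^ ((n : ℝ) / 100) * Fintype.card (SimpleGraph (Fin n)) := by
    intro c hc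
    have hc' : Function.Injective c := (Finset.mem_filter.mp hc).2
    have hcard : (univ.image c).card = k := by
      rw [Finset.card_image_of_injective _ hc']
      simp
    have ht := hT n (univ.image c) (fun s => F (fun t => decide (c t ∈ s))) (by
      rw [cnt_sub k n c hc' F, hcard]
      exact hF)
    refine le_trans (cnt_mono ?_) ht
    intro H hH
    rw [cnt_eq_card]
    have hsub : (univ.filter fun j => F (fun t => decide (H.Adj (c t) j))) ⊆
        univ.image c ∪ (univ.filter fun b => b ∉ univ.image c ∧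
          F (fun t => decide (c t ∈ nb H b ∩ univ.image c))) := by
      intro j hj
      rw [Finset.mem_filter] at hj
      rw [Finset.mem_union, Finset.mem_filter]
      by_cases hjc : j ∈ univ.image c
      · exact Or.inl hjc
      · refine Or.inr ⟨Finset.mem_univ _, hjc, ?_⟩
        convert hj.2 using 3 with t
        rw [Finset.mem_inter, G0_mem_nb]
        constructor
        · intro h
          exact h.1.symm
        · intro h
          exact ⟨h.symm, Finset.mem_image_of_mem _ (Finset.mem_univ _)⟩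
    have hle := (Finset.card_le_card hsub).trans (Finset.card_union_le _ _)
    rw [hcard] at hle
    have hH' : (d : ℝ) < (k : ℝ) + (univ.filter fun b => b ∉ univ.image c ∧
          F (fun t => decide (c t ∈ nb H b ∩ univ.image c))).card + 6 := by
      have : d < k + (univ.filter fun b => b ∉ univ.image c ∧
          F (fun t => decide (c t ∈ nb H b ∩ univ.image c))).card + 6 := by omega
      exact_mod_cast this
    linarith
  have hunion : cnt (fun H : SimpleGraph (Fin n) => ∃ c : Fin k → Fin n, Function.Injective c ∧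
        d < (univ.filter fun j => F (fun t => decide (H.Adj (c t) j))).card + 6) ≤
      ∑ c ∈ (univ.filter fun c : Fin k → Fin n => Function.Injective c),
        cnt (fun H : SimpleGraph (Fin n) =>
          d < (univ.filter fun j => F (fun t => decide (H.Adj (c t) j))).card + 6) := by
    refine le_trans (cnt_mono ?_) (cnt_exists_le _ _)
    rintro H ⟨c, hc, h⟩
    exact ⟨c, Finset.mem_filter.mpr ⟨Finset.mem_univ _, hc⟩, h⟩
  have hcount : ((univ.filter fun c : Fin k → Fin n => Function.Injective c).card : ℝ) ≤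
      (n : ℝ) ^ k := by
    have : (univ.filter fun c : Fin k → Fin n => Function.Injective c).card ≤ n ^ k := by
      refine (Finset.card_le_univ _).trans ?_
      simp
    exact_mod_cast this
  calc cnt (fun H : SimpleGraph (Fin n) => ∃ c : Fin k → Fin n, Function.Injective c ∧
        d < (univ.filter fun j => F (fun t => decide (H.Adj (c t) j))).card + 6)
      ≤ ∑ c ∈ (univ.filter fun c : Fin k → Fin n => Function.Injective c),
          (4 / 5 : ℝ) ^ ((n : ℝ) / 100) * Fintype.card (SimpleGraph (Fin n)) :=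
        hunion.trans (Finset.sum_le_sum hone)
    _ = ((univ.filter fun c : Fin k → Fin n => Function.Injective c).card : ℝ) *
          ((4 / 5 : ℝ) ^ ((n : ℝ) / 100) * Fintype.card (SimpleGraph (Fin n))) := by
        rw [Finset.sum_const, nsmul_eq_mul]
    _ ≤ (n : ℝ) ^ k * ((4 / 5 : ℝ) ^ ((n : ℝ) / 100) * Fintype.card (SimpleGraph (Fin n))) := by
        apply mul_le_mul_of_nonneg_right hcount
        positivity
    _ = ((n : ℝ) ^ k * (4 / 5 : ℝ) ^ ((n : ℝ) / 100)) *
          Fintype.card (SimpleGraph (Fin n)) := by ring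
    _ ≤ δ * Fintype.card (SimpleGraph (Fin n)) := mul_le_mul_of_nonneg_right h1 hN0

theorem t_R2 (hT : J_TAIL) : J_R2 := by
  classical
  intro C δ hδ
  have hF : 64 * cnt (fun v : Fin 3 → Bool => v 2 = true ∧ (v 0 = true ∨ v 1 = true)) ≤
      27 * 2 ^ 3 := by
    rw [cnt_eq_card]
    have : (univ.filter (fun v : Fin 3 → Bool => v 2 = true ∧ (v 0 = true ∨ v 1 = true))).card
        = 3 := by decide
    rw [this]
    norm_num
  obtain ⟨n₀, hn₀⟩ := gen_R hT 3 _ hF C δ hδ
  refine ⟨n₀, fun n hn d hd => ?_⟩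
  refine le_trans (cnt_mono ?_) (hn₀ n hn d hd)
  intro H hH
  unfold R2 at hH
  push Not at hH
  obtain ⟨x, y, i, hix, hiy, hxy, h⟩ := hH
  refine ⟨![x, y, i], ?_, ?_⟩
  · intro a b hab
    fin_cases a <;> fin_cases b <;> simp_all
  · unfold dgP at h
    have heq : (univ.filter fun j => H.Adj i j ∧ (H.Adj x j ∨ H.Adj y j)) =
      (univ.filter fun j => (fun v : Fin 3 → Bool => v 2 = true ∧ (v 0 = true ∨ v 1 = true))
        (fun t => decide (H.Adj ((![x, y, i] : Fin 3 → Fin n) t) j))) := by
      ext j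
      simp
    have hc : (univ.filter fun j => H.Adj i j ∧ (H.Adj x j ∨ H.Adj y j)).card =
      (univ.filter fun j => (fun v : Fin 3 → Bool => v 2 = true ∧ (v 0 = true ∨ v 1 = true))
        (fun t => decide (H.Adj ((![x, y, i] : Fin 3 → Fin n) t) j))).card := by rw [heq]
    have h' : d < (univ.filter fun j => H.Adj i j ∧ (H.Adj x j ∨ H.Adj y j)).card + 5 := by
      refine lt_of_lt_of_le h (le_of_eq ?_)
      congr!
    rw [hc] at h'
    calc d < _ := h'
      _ ≤ _ := by
        apply Nat.add_le_add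
        · apply le_of_eq
          congr!
        · norm_num

theorem t_R3 (hT : J_TAIL) : J_R3 := by
  classical
  intro C δ hδ
  have hF : 64 * cnt (fun v : Fin 6 → Bool => (v 0 = true ∨ v 1 = true) ∧
      (v 2 = true ∨ v 3 = true) ∧ (v 4 = true ∨ v 5 = true)) ≤ 27 * 2 ^ 6 := by
    rw [cnt_eq_card]
    have : (univ.filter (fun v : Fin 6 → Bool => (v 0 = true ∨ v 1 = true) ∧
      (v 2 = true ∨ v 3 = true) ∧ (v 4 = true ∨ v 5 = true))).card = 27 := by decide +kernel
    rw [this]
    norm_num
  obtain ⟨n₀, hn₀⟩ := gen_R hT 6 _ hF C δ hδ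
  refine ⟨n₀, fun n hn d hd => ?_⟩
  refine le_trans (cnt_mono ?_) (hn₀ n hn d hd)
  intro H hH
  unfold R3 at hH
  push Not at hH
  obtain ⟨c, hc, h⟩ := hH
  refine ⟨c, hc, ?_⟩
  calc d < _ := h
    _ ≤ _ := by
      apply Nat.add_le_add_right
      apply le_of_eq
      congr 1
      ext j
      simp

end Run7.h590.GC
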